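import Pool.Agent.Helper64_NPX.PWR
import Pool.Agent.Helper64_NPX.MUP
import Pool.Agent.Helper10_NPX.UAC
import Pool.Agent.Helper64_NPX.MYN
import Pool.Agent.Helper58_NPX.TRN
import Pool.Agent.Helper45_NPX.CRN
import Pool.Agent.Helper39_NPX.CNN
import Pool.Agent.Helper65_NPX.LSC
import Pool.Agent.Helper81_NPX.PHN
import Pool.Agent.Helper29_NPX.SPA
import Pool.Agent.Helper4_NPX.SPB
import Pool.Agent.Helper8_NPX.GNR
import Pool.Agent.Helper4_NPX.TRI
import Pool.Agent.Helper50_NPX.EXN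
import Pool.Agent.Helper46_NPX.FOL
import Pool.Agent.Helper10_NPX.AVG
import Pool.Agent.Helper59_NPX.MAN
import Pool.Agent.Helper15_NPX.DNN
import Pool.Agent.Helper42_NPX.FNN

/-!
# Squad NPX: assembly
-/

set_option autoImplicit false

namespace Pool.Agent.NPX.H35

theorem pwr_ : PwrStmt := H64.pwr
theorem mup_ : MupStmt := H64.mup
theorem uac_ : UacStmt := H10.uac mup_
theorem myn_ : MynStmt := H64.myn
theorem trn_ : TrnStmt := H58.trn
theorem crn_ : CrnStmt := H45.crn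
theorem cnn_ : CnnStmt := H39.cnn pwr_ mup_ myn_ trn_ crn_
theorem lsc_ : LscStmt := H65.lsc
theorem phn_ : PhnStmt := H81.phn lsc_
theorem spa_ : SpaStmt := H29.spa phn_
theorem spb_ : SpbStmt := H4.spb pwr_ spa_
theorem gnr_ : GnrStmt := H8.gnr mup_
theorem tri_ : TriStmt := H4.tri pwr_
theorem exn_ : ExnStmt := H50.exn mup_ phn_
theorem fol_ : FolStmt := H46.fol pwr_
theorem avg_ : AvgStmt := H10.avg mup_ uac_
theorem man_ : ManStmt := H59.man pwr_ exn_ fol_ avg_ tri_ gnr_ spb_ Pool.Agent.LSG.H46.rpv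
theorem dnn_ : DnnStmt := H15.dnn
theorem fnn_ : FnnStmt := H42.fnn cnn_ man_ dnn_

end Pool.Agent.NPX.H35
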