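import Pool.Agent.Helper35_NPX.Asm
import Pool.Agent.Helper99_LSG.CPE
import Pool.Agent.Helper21_LSG.BRI

/-!
# Squad NPX: S-stable spaces are l-equivalent to their squares
-/

set_option autoImplicit false

open Set Topology Filter

namespace Pool.Agent.NPX.H35

open Pool.Agent.LSG

/-- `ω + 1` is homeomorphic to `1 ⊔ (ω + 1)` -/
noncomputable def onePt : OnePoint ℕ ≃ₜ Unit ⊕ OnePoint ℕ where
  toFun x := x.elim (Sum.inr OnePoint.infty) fun n : ℕ => Nat.casesOn n (Sum.inl ()) fun m => Sum.inr ((m : ℕ) : OnePoint ℕ)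
  invFun y := y.elim (fun _ => ((0 : ℕ) : OnePoint ℕ)) fun z => z.elim OnePoint.infty fun n : ℕ => ((n + 1 : ℕ) : OnePoint ℕ)
  left_inv x := by
    induction x using OnePoint.rec with
    | infty => rfl
    | coe n =>
      cases n with
      | zero => rfl
      | succ m => rfl
  right_inv y := by
    rcases y with u | z
    · rfl
    · induction z using OnePoint.rec with
      | infty => rfl
      | coe n => rfl
  continuous_toFun := by
    rw [OnePoint.continuous_iff_from_nat]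
    rw [← tendsto_add_atTop_iff_nat 1]
    show Tendsto (fun n : ℕ => (Sum.inr ((n : ℕ) : OnePoint ℕ) : Unit ⊕ OnePoint ℕ)) atTop
      (𝓝 (Sum.inr OnePoint.infty))
    have h : Tendsto (fun n : ℕ => ((n : ℕ) : OnePoint ℕ)) atTop (𝓝 (OnePoint.infty : OnePoint ℕ)) :=
      (OnePoint.continuous_iff_from_nat (id : OnePoint ℕ → OnePoint ℕ)).1 continuous_id
    exact (continuous_inr.tendsto _).comp h
  continuous_invFun := by
    rw [continuous_sum_dom]
    refine ⟨continuous_const, ?_⟩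
    rw [OnePoint.continuous_iff_from_nat]
    have h : Tendsto (fun n : ℕ => ((n : ℕ) : OnePoint ℕ)) atTop (𝓝 (OnePoint.infty : OnePoint ℕ)) :=
      (OnePoint.continuous_iff_from_nat (id : OnePoint ℕ → OnePoint ℕ)).1 continuous_id
    exact h.comp (tendsto_add_atTop_nat 1)

noncomputable def prodOnePt (X : Type) [TopologicalSpace X] :
    X × OnePoint ℕ ≃ₜ X ⊕ (X × OnePoint ℕ) :=
  ((Homeomorph.refl X).prodCongr onePt).trans
    (Homeomorph.prodSumDistrib.trans ((Homeomorph.prodPUnit X).sumCongr (Homeomorph.refl _)))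

/-- S-stable spaces are l-equivalent to their squares -/
theorem leq_of_sstable (X : Type) [TopologicalSpace X] (h : SStable X) : LEq X (X ⊕ X) := by
  have hb := Pool.Agent.LSG.H21.bri.1
  obtain ⟨c1, -, -, c4⟩ := Pool.Agent.LSG.H99.cpe
  obtain ⟨a⟩ : LEc (X × OnePoint ℕ) X := (hb _ _).1 h
  obtain ⟨b⟩ : LEc (X × OnePoint ℕ) (X ⊕ (X × OnePoint ℕ)) := c1 _ _ ⟨prodOnePt X⟩
  obtain ⟨c⟩ : LEc (X ⊕ (X × OnePoint ℕ)) (X ⊕ X) :=
    c4 _ _ _ _ (c1 _ _ ⟨Homeomorph.refl X⟩) ⟨a⟩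
  exact (hb _ _).2 ⟨a.symm.trans (b.trans c)⟩

/-- l-equivalence is symmetric -/
theorem leq_symm {X Y : Type} [TopologicalSpace X] [TopologicalSpace Y] (h : LEq X Y) :
    LEq Y X := by
  have hb := Pool.Agent.LSG.H21.bri.1
  obtain ⟨a⟩ : LEc X Y := (hb _ _).1 h
  exact (hb _ _).2 ⟨a.symm⟩

/-- `X` and `X × Fin 1`, `X ⊕ univ` and `X × Fin 2` -/
theorem leq_fin_of_sum (X : Type) [TopologicalSpace X] (h : LEq X (X ⊕ (Set.univ : Set X))) :
    LEq (X × Fin 1) (X × Fin 2) := by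
  have hb := Pool.Agent.LSG.H21.bri.1
  obtain ⟨a⟩ := (hb _ _).1 h
  obtain ⟨b⟩ := Pool.Agent.LSG.H99.cpe.1 (X × Fin 1) X ⟨Homeomorph.prodUnique X (Fin 1)⟩
  obtain ⟨c⟩ := Pool.Agent.LSG.H99.cpe.1 (X ⊕ (Set.univ : Set X)) (X × Fin 2)
    (Pool.Agent.NPX.H42.hom2 X)
  exact (hb _ _).2 ⟨(b.trans a).trans c⟩

/-- l-stable spaces are l-equivalent to their squares -/
theorem leq_of_lstable (X : Type) [TopologicalSpace X] (h : LStable X) :
    LEq X (X ⊕ (Set.univ : Set X)) :=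
  h Set.univ ((Pool.Agent.LSG.H21.bri.2 X Set.univ).mpr
    (Pool.Agent.LSG.H18.cex.2 X Set.univ isClopen_univ))

/-- S-stable spaces are l-equivalent to their squares -/
theorem leq_of_sstable' (X : Type) [TopologicalSpace X] (h : SStable X) :
    LEq X (X ⊕ (Set.univ : Set X)) := by
  have hb := Pool.Agent.LSG.H21.bri.1
  obtain ⟨a⟩ := (hb _ _).1 (leq_of_sstable X h)
  obtain ⟨c⟩ := Pool.Agent.LSG.H99.cpe.1 (X ⊕ X) (X ⊕ (Set.univ : Set X))
    ⟨(Homeomorph.refl X).sumCongr (Homeomorph.Set.univ X).symm⟩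
  exact (hb _ _).2 ⟨a.trans c⟩

/-- every infinite compact metrizable abelian group has a dense subgroup `G` such that `G × Fin p`
and `G × Fin q` are l-equivalent only if `p = q` -/
theorem rig (K : Type) [CommGroup K] [TopologicalSpace K] [IsTopologicalGroup K] [CompactSpace K]
    [TopologicalSpace.MetrizableSpace K] [Infinite K] : ∃ G : Subgroup K, Dense (G : Set K) ∧
      ¬ LStable G ∧ ¬ SStable G ∧ ∀ p q : ℕ, LEq (G × Fin p) (G × Fin q) → p = q := by
  let _ : MeasurableSpace K := borel K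
  have _ : BorelSpace K := ⟨rfl⟩
  obtain ⟨G, hG, hd⟩ := cnn_ K
  have hm := man_ K G hG
  refine ⟨G, hd, fun h => ?_, fun h => ?_, fun p q h => le_antisymm (hm q p (leq_symm h)) (hm p q h)⟩
  · have := hm 1 2 (leq_fin_of_sum _ (leq_of_lstable _ h))
    omega
  · have := hm 1 2 (leq_fin_of_sum _ (leq_of_sstable' _ h))
    omega

/-- the theorem of squad NPX -/
theorem cmp (K : Type) [CommGroup K] [UniformSpace K] [IsUniformGroup K] [CompleteSpace K]
    [TopologicalSpace.MetrizableSpace K] [Infinite K] :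
    (CompactSpace K ↔ ∃ G : Subgroup K, Dense (G : Set K) ∧ ¬ LStable G) ∧
    (CompactSpace K → ∃ G : Subgroup K, Dense (G : Set K) ∧ ¬ LStable G ∧ ¬ SStable G ∧
      ∀ p q : ℕ, LEq (G × Fin p) (G × Fin q) → p = q) :=
  ⟨fnn_ K, fun _ => rig K⟩

end Pool.Agent.NPX.H35
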